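import Mathlib

/-!
# The key lemma on the circle

Let `x` be an element of infinite order of the circle, and let `a n • x → 0` along `B`. There is an
injective map `z` from the subsets of `ℕ` to the circle such that for `A ⊆ C` and `B' ⊆ B`,
`a n • z C → 0` along `B'` implies `a n • z A → 0` along `B'`.
-/

namespace Pool.Agent.X215.Circ

open Filter Topology

/-- The circle. -/
abbrev T := UnitAddCircle

theorem exists_small (x : T) {δ : ℝ} (hδ : 0 < δ) : ∃ d : ℕ, 0 < d ∧ ‖d • x‖ < δ := by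
  obtain ⟨n, hn⟩ := exists_nat_one_div_lt hδ
  obtain ⟨j, hj, hj'⟩ := AddCircle.exists_norm_nsmul_le x (n := n + 1) (Nat.succ_pos n)
  refine ⟨j, hj.1, lt_of_le_of_lt hj' (lt_of_le_of_lt ?_ hn)⟩
  push_cast
  apply one_div_le_one_div_of_le <;> linarith [Nat.cast_nonneg (α := ℝ) n]

/-- The states of the construction. -/
structure St where
  d : ℕ
  N : ℕ
  D : ℕ

/-- The sum of the absolute values of the first terms. -/
noncomputable def M (a : ℕ → ℤ) (N : ℕ) : ℝ := ∑ n ∈ Finset.range N, ‖a n‖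

theorem M_nonneg (a : ℕ → ℤ) (N : ℕ) : 0 ≤ M a N := Finset.sum_nonneg fun _ _ => norm_nonneg _

theorem le_M (a : ℕ → ℤ) {N n : ℕ} (h : n < N) : ‖a n‖ ≤ M a N :=
  Finset.single_le_sum (f := fun n => ‖a n‖) (fun _ _ => norm_nonneg _) (Finset.mem_range.2 h)

theorem exists_step (x : T) (hx : ∀ k : ℕ, 0 < k → k • x ≠ 0) (a : ℕ → ℤ) (B : Set ℕ)
    (h : Tendsto (fun n => a n • x) (atTop ⊓ 𝓟 B) (𝓝 0)) (i : ℕ) (s : St) :
    ∃ s' : St, 0 < s'.d ∧ (1 + M a s.N) * ‖s'.d • x‖ ≤ (1 / 4) ^ (i + 1) ∧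
      (0 < s.d → ‖s'.d • x‖ ≤ ‖s.d • x‖ / 3) ∧ s.N < s'.N ∧ s'.D = s.D + s'.d ∧
      ∀ n ∈ B, s'.N ≤ n → ‖a n • x‖ * s'.D ≤ (1 / 2) ^ (i + 1) := by
  have hM : 0 < 1 + M a s.N := by have := M_nonneg a s.N; linarith
  obtain ⟨d, hd, hd'⟩ : ∃ d : ℕ, 0 < d ∧ ‖d • x‖ <
      min ((1 / 4) ^ (i + 1) / (1 + M a s.N)) (if 0 < s.d then ‖s.d • x‖ / 3 else 1) := by
    apply exists_small
    apply lt_min (by positivity)
    split_ifs with hs
    · have := norm_pos_iff.2 (hx s.d hs)
      positivity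
    · exact one_pos
  rw [lt_min_iff] at hd'
  have h1 : ∀ᶠ n in atTop ⊓ 𝓟 B, ‖a n • x‖ < (1 / 2) ^ (i + 1) / ((s.D + d : ℕ) : ℝ) := by
    have h2 := (tendsto_zero_iff_norm_tendsto_zero.1 h)
    refine h2.eventually_lt_const ?_
    have : (0 : ℝ) < ((s.D + d : ℕ) : ℝ) := by exact_mod_cast (by omega : 0 < s.D + d)
    positivity
  rw [eventually_inf_principal, eventually_atTop] at h1
  obtain ⟨N, hN⟩ := h1
  refine ⟨⟨d, max N (s.N + 1), s.D + d⟩, hd, ?_, ?_, ?_, rfl, ?_⟩
  · have := hd'.1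
    rw [lt_div_iff₀ hM] at this
    show (1 + M a s.N) * ‖d • x‖ ≤ _
    linarith
  · intro hs
    have := hd'.2
    rw [if_pos hs] at this
    exact this.le
  · show s.N < max N (s.N + 1)
    have := le_max_right N (s.N + 1)
    omega
  · intro n hn hNn
    have h2 := hN n (le_trans (le_max_left _ _) hNn) hn
    have h3 : (0 : ℝ) < ((s.D + d : ℕ) : ℝ) := by exact_mod_cast (by omega : 0 < s.D + d)
    rw [lt_div_iff₀ h3] at h2
    exact h2.le

/-- The sequences of the construction. -/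
theorem exists_seqs (x : T) (hx : ∀ k : ℕ, 0 < k → k • x ≠ 0) (a : ℕ → ℤ) (B : Set ℕ)
    (h : Tendsto (fun n => a n • x) (atTop ⊓ 𝓟 B) (𝓝 0)) :
    ∃ (d N : ℕ → ℕ), (∀ i, 0 < d i) ∧ (∀ i, (1 + M a (N i)) * ‖d i • x‖ ≤ (1 / 4) ^ (i + 1)) ∧
      (∀ i, ‖d (i + 1) • x‖ ≤ ‖d i • x‖ / 3) ∧ N 0 = 0 ∧ StrictMono N ∧
      ∀ i, ∀ n ∈ B, N i ≤ n → ‖a n • x‖ * ((∑ j ∈ Finset.range i, d j : ℕ) : ℝ) ≤ (1 / 2) ^ i := by
  choose st h1 h2 h3 h4 h5 h6 using exists_step x hx a B h
  let s : ℕ → St := fun i => Nat.rec ⟨0, 0, 0⟩ (fun i p => st i p) i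
  have hs : ∀ i, s (i + 1) = st i (s i) := fun i => rfl
  have hD : ∀ i, (s i).D = ∑ j ∈ Finset.range i, (s (j + 1)).d := by
    intro i
    induction i with
    | zero => rfl
    | succ i ih => rw [Finset.sum_range_succ, ← ih, hs, h5]
  refine ⟨fun i => (s (i + 1)).d, fun i => (s i).N, fun i => h1 i (s i), fun i => h2 i (s i),
    fun i => ?_, rfl, strictMono_nat_of_lt_succ fun i => h4 i (s i), fun i n hn hNn => ?_⟩
  · exact h3 (i + 1) (s (i + 1)) (h1 i (s i))
  · cases i with
    | zero => simp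
    | succ i =>
      rw [← hD]
      exact h6 i (s i) n hn hNn

/-- **The key lemma.** -/
theorem key (x : T) (hx : ∀ k : ℕ, 0 < k → k • x ≠ 0) (a : ℕ → ℤ) (B : Set ℕ)
    (h : Tendsto (fun n => a n • x) (atTop ⊓ 𝓟 B) (𝓝 0)) :
    ∃ z : Set ℕ → T, Function.Injective z ∧ ∀ A C : Set ℕ, A ⊆ C → ∀ B' ⊆ B,
      Tendsto (fun n => a n • z C) (atTop ⊓ 𝓟 B') (𝓝 0) →
      Tendsto (fun n => a n • z A) (atTop ⊓ 𝓟 B') (𝓝 0) := by
  classical
  obtain ⟨d, N, hd, hd4, hd3, hN0, hN, hB⟩ := exists_seqs x hx a B h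
  have hr : ∀ i, ‖d i • x‖ ≤ (1 / 4) ^ (i + 1) := by
    intro i
    have h1 := hd4 i
    have h2 := M_nonneg a (N i)
    have h3 := norm_nonneg (d i • x)
    nlinarith
  have hrpos : ∀ i, 0 < ‖d i • x‖ := fun i => norm_pos_iff.2 (hx _ (hd i))
  have hr3 : ∀ i k, ‖d (i + k) • x‖ ≤ ‖d i • x‖ * (1 / 3) ^ k := by
    intro i k
    induction k with
    | zero => simp
    | succ k ih =>
      have := hd3 (i + k)
      rw [← add_assoc, pow_succ]
      linarith
  let t : Set ℕ → ℕ → T := fun E j => if j ∈ E then d j • x else 0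
  have ht : ∀ E j, ‖t E j‖ ≤ ‖d j • x‖ := by
    intro E j
    simp only [t]
    split_ifs
    · exact le_rfl
    · rw [norm_zero]; exact norm_nonneg _
  have hgeo : Summable fun j : ℕ => ((1 : ℝ) / 4) ^ (j + 1) :=
    (summable_nat_add_iff 1).2 (summable_geometric_of_lt_one (by norm_num) (by norm_num))
  have hts : ∀ E, Summable (t E) := fun E =>
    Summable.of_norm_bounded hgeo fun j => (ht E j).trans (hr j)
  refine ⟨fun E => ∑' j, t E j, ?_, ?_⟩
  · -- injectivity
    intro E E' hEE'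
    by_contra hne
    have hex : ∃ i, ¬ (i ∈ E ↔ i ∈ E') := by
      by_contra hcon
      push Not at hcon
      exact hne (Set.ext hcon)
    set i := Nat.find hex with hi
    have hi1 : ¬ (i ∈ E ↔ i ∈ E') := Nat.find_spec hex
    have hi2 : ∀ j < i, (j ∈ E ↔ j ∈ E') := fun j hj => not_not.1 (Nat.find_min hex hj)
    have h1 := (hts E).sum_add_tsum_nat_add (i + 1)
    have h2 := (hts E').sum_add_tsum_nat_add (i + 1)
    simp only at hEE'
    rw [← h1, ← h2, Finset.sum_range_succ, Finset.sum_range_succ] at hEE'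
    have h3 : ∑ j ∈ Finset.range i, t E j = ∑ j ∈ Finset.range i, t E' j := by
      refine Finset.sum_congr rfl fun j hj => ?_
      simp only [t, hi2 j (Finset.mem_range.1 hj)]
    rw [h3, add_assoc, add_assoc] at hEE'
    have h4 := add_left_cancel hEE'
    have h5 : t E i - t E' i = ∑' j, (t E' (j + (i + 1)) - t E (j + (i + 1))) := by
      rw [((summable_nat_add_iff (i + 1)).2 (hts E')).tsum_sub
        ((summable_nat_add_iff (i + 1)).2 (hts E))]
      rw [sub_eq_sub_iff_add_eq_add, h4, add_comm]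
    have h6 : ‖t E i - t E' i‖ = ‖d i • x‖ := by
      simp only [t]
      by_cases h7 : i ∈ E
      · have h8 : i ∉ E' := fun h => hi1 ⟨fun _ => h, fun _ => h7⟩
        rw [if_pos h7, if_neg h8, sub_zero]
      · have h8 : i ∈ E' := by
          by_contra h
          exact hi1 ⟨fun h' => absurd h' h7, fun h' => absurd h' h⟩
        rw [if_neg h7, if_pos h8, zero_sub, norm_neg]
    have h7 : ‖∑' j, (t E' (j + (i + 1)) - t E (j + (i + 1)))‖ ≤ ‖d i • x‖ / 2 := by
      have h8 : HasSum (fun j : ℕ => ‖d i • x‖ * (1 / 3) * (1 / 3) ^ j)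
          (‖d i • x‖ * (1 / 3) * (1 - 1 / 3)⁻¹) :=
        (hasSum_geometric_of_lt_one (by norm_num) (by norm_num)).mul_left _
      have h9 : ‖d i • x‖ * (1 / 3) * (1 - 1 / 3)⁻¹ = ‖d i • x‖ / 2 := by norm_num; ring
      rw [h9] at h8
      refine tsum_of_norm_bounded h8 fun j => ?_
      have h10 : ‖t E' (j + (i + 1)) - t E (j + (i + 1))‖ ≤ ‖d (j + (i + 1)) • x‖ := by
        simp only [t]
        split_ifs
        · rw [sub_self, norm_zero]; exact norm_nonneg _
        · rw [sub_zero]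
        · rw [zero_sub, norm_neg]
        · rw [sub_self, norm_zero]; exact norm_nonneg _
      have h11 := hr3 i (j + 1)
      rw [show j + (i + 1) = i + (j + 1) by ring] at h10
      rw [pow_succ] at h11
      rw [show j + (i + 1) = i + (j + 1) by ring]
      linarith
    rw [← h5, h6] at h7
    have := hrpos i
    linarith
  · -- convergence
    have hidx : ∀ n, ∃ i, N i ≤ n ∧ n < N (i + 1) := by
      intro n
      have hex : ∃ i, n < N (i + 1) := ⟨n, lt_of_lt_of_le (Nat.lt_succ_self n) (hN.le_apply)⟩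
      refine ⟨Nat.find hex, ?_, Nat.find_spec hex⟩
      by_cases h0 : Nat.find hex = 0
      · rw [h0, hN0]; exact Nat.zero_le _
      · obtain ⟨k, hk⟩ := Nat.exists_eq_succ_of_ne_zero h0
        have := Nat.find_min hex (m := k) (by omega)
        rw [hk]
        exact not_lt.1 this
    choose ι hι1 hι2 using hidx
    have herr : ∀ n ∈ B, ∀ E, ‖a n • (∑' j, t E j) - a n • t E (ι n)‖ ≤ 2 * (1 / 2) ^ (ι n) := by
      intro n hn E
      set i := ι n with hi
      have h1 := (hts E).sum_add_tsum_nat_add (i + 1)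
      rw [← h1, Finset.sum_range_succ]
      have h2 : a n • (∑ j ∈ Finset.range i, t E j + t E i + ∑' j, t E (j + (i + 1))) -
          a n • t E i = a n • ∑ j ∈ Finset.range i, t E j + a n • ∑' j, t E (j + (i + 1)) := by
        rw [smul_add, smul_add]; abel
      rw [h2]
      have h3 : ‖a n • ∑ j ∈ Finset.range i, t E j‖ ≤ (1 / 2) ^ i := by
        rw [Finset.smul_sum]
        refine (norm_sum_le _ _).trans ?_
        refine le_trans ?_ (hB i n hn (hι1 n))
        push_cast
        rw [Finset.mul_sum]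
        refine Finset.sum_le_sum fun j _ => ?_
        simp only [t]
        split_ifs
        · rw [smul_comm, mul_comm]
          exact norm_nsmul_le
        · rw [smul_zero, norm_zero]; positivity
      have h4 : ‖a n • ∑' j, t E (j + (i + 1))‖ ≤ (1 / 2) ^ i := by
        rw [← ((summable_nat_add_iff (i + 1)).2 (hts E)).tsum_const_smul]
        have h8 : HasSum (fun j : ℕ => (1 / 4 : ℝ) ^ (i + 2) * (1 / 4) ^ j)
            ((1 / 4 : ℝ) ^ (i + 2) * (1 - 1 / 4)⁻¹) :=
          (hasSum_geometric_of_lt_one (by norm_num) (by norm_num)).mul_left _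
        refine (tsum_of_norm_bounded h8 fun j => ?_).trans ?_
        · have h5 : ‖a n • t E (j + (i + 1))‖ ≤ ‖a n‖ * ‖t E (j + (i + 1))‖ := norm_zsmul_le _ _
          have h6 : ‖a n‖ ≤ 1 + M a (N (j + (i + 1))) := by
            have h7 : n < N (j + (i + 1)) :=
              lt_of_lt_of_le (hι2 n) (hN.monotone (by omega))
            have := le_M a h7
            linarith
          have h9 := hd4 (j + (i + 1))
          have h10 := ht E (j + (i + 1))
          have h11 : ‖a n‖ * ‖t E (j + (i + 1))‖ ≤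
              (1 + M a (N (j + (i + 1)))) * ‖d (j + (i + 1)) • x‖ := by
            gcongr
            have := M_nonneg a (N (j + (i + 1)))
            linarith
          rw [← pow_add, show i + 2 + j = j + (i + 1) + 1 by ring]
          linarith
        · have h12 : (1 / 4 : ℝ) ^ i ≤ (1 / 2) ^ i := by gcongr; norm_num
          have h13 : (0 : ℝ) < (1 / 4) ^ i := by positivity
          have h14 : (1 / 4 : ℝ) ^ 2 * (1 - 1 / 4)⁻¹ = 1 / 12 := by norm_num
          rw [pow_add, mul_assoc, h14]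
          linarith
      calc ‖a n • ∑ j ∈ Finset.range i, t E j + a n • ∑' j, t E (j + (i + 1))‖
          ≤ _ := norm_add_le _ _
        _ ≤ 2 * (1 / 2) ^ i := by linarith
    intro A C hAC B' hB' hC
    have hmain : ∀ n ∈ B, ‖a n • (∑' j, t A j)‖ ≤ ‖a n • (∑' j, t C j)‖ + 4 * (1 / 2) ^ (ι n) := by
      intro n hn
      have h1 := herr n hn A
      have h2 := herr n hn C
      by_cases hA : ι n ∈ A
      · have h3 : t A (ι n) = t C (ι n) := by
          simp only [t]
          rw [if_pos hA, if_pos (hAC hA)]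
        rw [h3] at h1
        have h4 : a n • (∑' j, t A j) = (a n • (∑' j, t A j) - a n • t C (ι n)) -
            (a n • (∑' j, t C j) - a n • t C (ι n)) + a n • (∑' j, t C j) := by abel
        rw [h4]
        refine (norm_add_le _ _).trans ?_
        have h5 := norm_sub_le (a n • (∑' j, t A j) - a n • t C (ι n))
          (a n • (∑' j, t C j) - a n • t C (ι n))
        linarith
      · have h3 : t A (ι n) = 0 := by
          simp only [t]
          rw [if_neg hA]
        rw [h3, smul_zero, sub_zero] at h1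
        have h4 := norm_nonneg (a n • (∑' j, t C j))
        have h5 : (0 : ℝ) < (1 / 2) ^ (ι n) := by positivity
        linarith
    rw [tendsto_zero_iff_norm_tendsto_zero] at hC ⊢
    rw [Metric.tendsto_nhds] at hC ⊢
    intro ε hε
    obtain ⟨k, hk⟩ := exists_pow_lt_of_lt_one (by linarith : 0 < ε / 8)
      (by norm_num : (1 / 2 : ℝ) < 1)
    have h1 := hC (ε / 2) (by linarith)
    rw [eventually_inf_principal] at h1 ⊢
    filter_upwards [h1, eventually_ge_atTop (N k)] with n hn1 hn2 hnB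
    have h2 := hn1 hnB
    have h3 := hmain n (hB' hnB)
    have h4 : k ≤ ι n := by
      have : N k < N (ι n + 1) := lt_of_le_of_lt hn2 (hι2 n)
      have := hN.lt_iff_lt.1 this
      omega
    have h5 : (1 / 2 : ℝ) ^ (ι n) ≤ (1 / 2) ^ k :=
      pow_le_pow_of_le_one (by norm_num) (by norm_num) h4
    rw [Real.dist_eq, sub_zero, abs_of_nonneg (norm_nonneg _)] at h2 ⊢
    linarith

end Pool.Agent.X215.Circ
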